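import Pool.Agent.Helper36.CQ.Pair
import Pool.Agent.Helper83.CK.All

/-! Assembly of project CQ (MP_f663dd_lc). -/

set_option autoImplicit false

namespace Pool.Agent.Helper36.CQ
open Cardinal Set Pool.Agent.Helper83.CK
universe u

/-- omega-closed Chang transfer implies the finite colouring property -/
theorem finCol_of_chang (α γ : Type u) (K : Set α) (hK : #K = #γ) (hg : ℵ₀ ≤ #γ) (hC : Chang K) :
    FinCol α γ := by
  classical
  intro F
  obtain ⟨q⟩ : Nonempty (γ ≃ K) := by rw [← Cardinal.eq, hK]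
  obtain ⟨A, hA, h1, h2⟩ := hC (fun _ x => if h : (Set.range x).Finite then (q (F h.toFinset) : α)
    else x 0)
  obtain ⟨X, hXA, hX⟩ : ∃ X ⊆ A, #X = #γ := by
    rw [← hK]
    exact le_mk_iff_exists_subset.1 h1
  refine ⟨X, hX, ?_⟩
  have h3 : (F '' {s : Finset α | (s : Set α) ⊆ X} : Set γ) ⊆
      {F ∅} ∪ ((fun c => (q c : α)) ⁻¹' (A ∩ K)) := by
    rintro c ⟨s, hs, rfl⟩
    rcases s.eq_empty_or_nonempty with rfl | hne
    · exact Or.inl rfl
    · right
      obtain ⟨x, hx⟩ := s.countable_toSet.exists_eq_range (Finset.coe_nonempty.2 hne)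
      have h4 : (Set.range x).Finite := by rw [← hx]; exact s.finite_toSet
      have h5 : h4.toFinset = s := by
        apply Finset.coe_injective
        rw [h4.coe_toFinset, hx]
      have h6 : (if h : (Set.range x).Finite then (q (F h.toFinset) : α) else x 0) ∈ A :=
        hA (fun _ => true) x (fun n => hXA (hs (by rw [hx]; exact ⟨n, rfl⟩)))
      rw [dif_pos h4, h5] at h6
      exact ⟨h6, (q (F s)).2⟩
  have h7 : #((fun c => (q c : α)) ⁻¹' (A ∩ K) : Set γ) ≤ #(A ∩ K : Set α) := by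
    let f : ((fun c => (q c : α)) ⁻¹' (A ∩ K) : Set γ) → (A ∩ K : Set α) :=
      fun c => ⟨(q c.1 : α), c.2⟩
    refine mk_le_of_injective (f := f) ?_
    intro c c' hcc
    have h9 := congrArg Subtype.val hcc
    have h8 : (q c.1 : α) = q c'.1 := h9
    exact Subtype.ext (q.injective (Subtype.ext h8))
  refine lt_of_le_of_lt ((mk_le_mk_of_subset h3).trans (mk_union_le _ _)) ?_
  refine add_lt_of_lt hg ?_ (lt_of_le_of_lt h7 (by rw [← hK]; exact h2))
  rw [mk_singleton]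
  exact lt_of_lt_of_le one_lt_aleph0 hg

theorem negRel_mono (k l l' : Cardinal.{u}) (hl : l ≤ l') (h : NegRel l' k) : NegRel l k := by
  classical
  rw [negRel_iff] at h ⊢
  obtain ⟨f, hf⟩ := h
  have hle : #(l.ord.ToType) ≤ #(l'.ord.ToType) := by rw [mk_ord_toType, mk_ord_toType]; exact hl
  obtain ⟨i⟩ := hle
  refine ⟨fun s => f (i '' s), fun X hX => ?_⟩
  have h1 := hf (i '' X) (by rw [mk_image_eq i.injective]; exact hX)
  rw [eq_univ_iff_forall] at h1 ⊢
  intro c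
  obtain ⟨t, ⟨ht, htc⟩, hc⟩ := h1 c
  obtain ⟨s, hs, rfl⟩ := subset_image_iff.1 ht
  refine ⟨s, ⟨hs, ?_⟩, hc⟩
  rw [mk_image_eq i.injective] at htc
  exact htc

/-- all equivalences for one pair of types -/
theorem equivs (hMod : StMod.{u}) (hCol : StCol.{u}) (hPos : StPos.{u}) (μ : Cardinal.{u})
    (hμ : ℵ₀ ≤ μ) (hp : μ ^ ℵ₀ = μ) :
    (¬ NegRel (Order.succ (Order.succ μ)) (Order.succ μ) ↔
      FinCol (Order.succ (Order.succ μ)).ord.ToType (Order.succ μ).ord.ToType) ∧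
    (¬ NegRel (Order.succ (Order.succ μ)) (Order.succ μ) ↔
      Transfer (Order.succ (Order.succ μ)) (Order.succ μ) (Order.succ μ) μ) := by
  set α := (Order.succ (Order.succ μ)).ord.ToType with hα
  set γ := (Order.succ μ).ord.ToType with hγ
  have hg : #γ = Order.succ μ := mk_ord_toType _
  have ha : #α = Order.succ #γ := by rw [hg]; exact mk_ord_toType _
  have hgi : ℵ₀ ≤ #γ := by rw [hg]; exact hμ.trans (Order.le_succ μ)
  obtain ⟨K, hK⟩ : ∃ K : Set α, #K = #γ := le_mk_iff_exists_set.1 (by rw [ha]; exact Order.le_succ _)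
  have e := equiv_types α γ hgi K hK
  have h12 : ¬ NegRel (Order.succ (Order.succ μ)) (Order.succ μ) → FinCol α γ := by
    intro h
    rw [negRel_iff] at h
    exact finCol_of_chang α γ K hK hgi (e.2.1.1 h)
  have h21 : FinCol α γ → ¬ NegRel (Order.succ (Order.succ μ)) (Order.succ μ) := by
    intro h
    rw [negRel_iff]
    exact e.1.2 (hPos α γ μ hμ hp hg ha h)
  have h13 : FinCol α γ → Transfer (Order.succ (Order.succ μ)) (Order.succ μ) (Order.succ μ) μ := by
    intro h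
    have := hMod α γ μ hμ hg h
    rw [ha, hg] at this
    exact this
  have h31 : Transfer (Order.succ (Order.succ μ)) (Order.succ μ) (Order.succ μ) μ → FinCol α γ := by
    intro h
    refine hCol α γ μ hg (by rw [ha]; exact Order.le_succ _) ?_
    rw [ha, hg]
    exact h
  exact ⟨⟨h12, h21⟩, ⟨fun h => h13 (h12 h), fun h => h21 (h31 h)⟩⟩

/-- the negative part -/
theorem only_if (hDec : StDec.{u}) (hHau : StHau.{u}) (hRho : StRho.{u}) (k : Cardinal.{u}) (m : ℕ)
    (hk : ℵ₀ ≤ k) (h : ¬ NegRel (Order.succ^[m] k) k) :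
    ∃ μ : Cardinal.{u}, k = Order.succ μ ∧ ℵ₀ ≤ μ ∧ μ ^ ℵ₀ = μ := by
  have hone : (1 : Cardinal.{u}) ≤ ℵ₀ := by exact_mod_cast one_le_aleph0
  have hck : 𝔠 < k := by
    by_contra hcon
    apply h
    rw [negRel_iff]
    exact tS _ _ (by rw [mk_ord_toType]; exact hk) (by rw [mk_ord_toType]; exact not_lt.1 hcon)
  obtain ⟨ρ, n, hρ, hlim, rfl⟩ := hDec k hk
  -- `n ≠ 0`
  rcases n with _ | n
  · exact absurd (neg_rel ρ hρ (Or.inl hlim) m) h
  refine ⟨Order.succ^[n] ρ, by rw [Function.iterate_succ_apply'], ?_, ?_⟩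
  · exact hρ.trans (le_succ_iter n ρ)
  set k := Order.succ^[n + 1] ρ with hkdef
  have hρk : ρ ≤ k := le_succ_iter (n + 1) ρ
  -- the main point
  have hpow : ρ ^ ℵ₀ < k := by
    rcases le_or_gt ρ 𝔠 with hc | hc
    · calc ρ ^ ℵ₀ ≤ 𝔠 ^ ℵ₀ := power_le_power_right hc
        _ = 𝔠 := continuum_power_aleph0
        _ < k := hck
    · by_contra hcon
      rw [not_lt] at hcon
      obtain ⟨K, hK⟩ := exists_subset_card (Order.succ^[m] k) k (le_succ_iter m k)
      have hch : Chang K := (equiv_chang k _ hk K hK).1 h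
      refine hRho _ K ρ (m + (n + 1)) (lt_of_le_of_lt aleph0_le_continuum hc) hlim
        (by rw [hK]; exact hρk) ?_ (by rw [hK]; exact hcon) hch
      rw [mk_ord_toType, hkdef, ← Function.iterate_add_apply]
  have hsk : k = Order.succ (Order.succ^[n] ρ) := by rw [hkdef, Function.iterate_succ_apply']
  have h1 : ρ ^ ℵ₀ ≤ Order.succ^[n] ρ := by
    rw [hsk] at hpow
    exact Order.lt_succ_iff.1 hpow
  have h2 := hHau ρ n hρ
  rw [max_eq_left h1] at h2
  exact le_antisymm h2 (self_le_power _ hone)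

/-- The pair form: every colouring of the pairs of `(succ (succ μ)).ord` by ordinals below
`(succ μ).ord` is bounded on a set of size `succ μ`. -/
def PairBdd (μ : Cardinal.{u}) : Prop :=
  ∀ f : (Order.succ (Order.succ μ)).ord.ToType → (Order.succ (Order.succ μ)).ord.ToType →
      (Order.succ μ).ord.ToType,
    ∃ (X : Set (Order.succ (Order.succ μ)).ord.ToType) (c : (Order.succ μ).ord.ToType),
      #X = Order.succ μ ∧ ∀ a ∈ X, ∀ b ∈ X, a < b → f a b ≤ c

theorem ord_Iio_le (μ : Cardinal.{u}) (a : (Order.succ μ).ord.ToType) : #(Iio a) ≤ μ :=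
  Order.lt_succ_iff.1 (mk_Iio_toType_ord_lt a)

theorem fin_iff_pair (μ : Cardinal.{u}) (hμ : ℵ₀ ≤ μ) :
    FinCol (Order.succ (Order.succ μ)).ord.ToType (Order.succ μ).ord.ToType ↔ PairBdd μ := by
  have hg : #(Order.succ μ).ord.ToType = Order.succ μ := mk_ord_toType _
  have hIg := ord_Iio_le μ
  have hIa : ∀ a : (Order.succ (Order.succ μ)).ord.ToType,
      #(Iio a) ≤ #(Order.succ μ).ord.ToType := by
    intro a
    rw [hg]
    exact ord_Iio_le _ a
  constructor
  · intro h f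
    obtain ⟨X, c, hX, hc⟩ := pair_of_fin hμ hg hIg h f
    exact ⟨X, c, hX.trans hg, hc⟩
  · intro h
    refine fin_of_pair hμ hg hIg hIa fun f => ?_
    obtain ⟨X, c, hX, hc⟩ := h f
    exact ⟨X, c, hX.trans hg.symm, hc⟩

/-- a family of `μ⁺⁺` pairwise eventually different functions from `μ⁺` to `μ` -/
theorem not_pair (μ : Cardinal.{u}) (hμ : ℵ₀ ≤ μ)
    (g : (Order.succ (Order.succ μ)).ord.ToType → (Order.succ μ).ord.ToType → μ.ord.ToType)
    (hg : ∀ a b, a ≠ b → ∃ c, ∀ x, c < x → g a x ≠ g b x) : ¬ PairBdd μ := by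
  classical
  intro h
  have hg' : ∀ a b : (Order.succ (Order.succ μ)).ord.ToType,
      ∃ c : (Order.succ μ).ord.ToType, a < b → ∀ x, c < x → g a x ≠ g b x := by
    intro a b
    by_cases hab : a < b
    · obtain ⟨c, hc⟩ := hg a b hab.ne
      exact ⟨c, fun _ => hc⟩
    · have hne : Nonempty (Order.succ μ).ord.ToType := by
        rw [← mk_ne_zero_iff, mk_ord_toType]
        exact (lt_of_lt_of_le aleph0_pos (hμ.trans (Order.le_succ μ))).ne'
      exact ⟨Classical.arbitrary _, fun h => absurd h hab⟩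
  choose f hf using hg'
  obtain ⟨X, c, hX, hc⟩ := h f
  have hu : μ < #(Set.univ : Set (Order.succ μ).ord.ToType) := by
    rw [mk_univ, mk_ord_toType]; exact Order.lt_succ μ
  obtain ⟨x, -, hx⟩ := bound hμ (ord_Iio_le μ) Set.univ hu {c}
    (by rw [mk_singleton]; exact le_trans (by exact_mod_cast one_le_aleph0) hμ)
  have hcx : c < x := hx c rfl
  have hinj : Function.Injective (fun a : X => g a x) := by
    intro a b hab
    by_contra hne
    have hne2 : a.1 ≠ b.1 := fun hh => hne (Subtype.ext hh)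
    rcases lt_or_gt_of_ne hne2 with hl | hl
    · exact hf a b hl x (lt_of_le_of_lt (hc a a.2 b b.2 hl) hcx) hab
    · exact hf b a hl x (lt_of_le_of_lt (hc b b.2 a a.2 hl) hcx) hab.symm
  have h1 := mk_le_of_injective hinj
  rw [hX, mk_ord_toType] at h1
  exact absurd h1 (not_le.2 (Order.lt_succ μ))

/-- the negative relation from the failure of the pair form, for all infinite `μ` -/
theorem neg_of_not_pair (μ : Cardinal.{u}) (hμ : ℵ₀ ≤ μ) (h : ¬ PairBdd μ) :
    NegRel (Order.succ (Order.succ μ)) (Order.succ μ) := by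
  by_contra hcon
  apply h
  rw [← fin_iff_pair μ hμ]
  have hg : #(Order.succ μ).ord.ToType = Order.succ μ := mk_ord_toType _
  have hgi : ℵ₀ ≤ #(Order.succ μ).ord.ToType := by rw [hg]; exact hμ.trans (Order.le_succ μ)
  obtain ⟨K, hK⟩ := exists_subset_card (Order.succ (Order.succ μ)) (Order.succ μ) (Order.le_succ _)
  refine finCol_of_chang _ _ K (hK.trans hg.symm) hgi ?_
  exact (equiv_chang (Order.succ μ) _ (by rw [← hg]; exact hgi) K hK).1 hcon

theorem inf_of_succ (μ : Cardinal.{u}) (hk : ℵ₀ ≤ Order.succ μ) : ℵ₀ ≤ μ := by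
  by_contra hcon
  rw [not_le] at hcon
  exact absurd hk (not_le.2 (isSuccLimit_aleph0.succ_lt hcon))

theorem main (hDec : StDec.{u}) (hHau : StHau.{u}) (hRho : StRho.{u}) (hMod : StMod.{u})
    (hCol : StCol.{u}) :
    (∀ k : Cardinal.{u}, ℵ₀ ≤ k → (¬ NegRel (Order.succ k) k ↔
      ∃ μ : Cardinal.{u}, k = Order.succ μ ∧ μ ^ ℵ₀ = μ ∧
        Transfer (Order.succ (Order.succ μ)) (Order.succ μ) (Order.succ μ) μ)) ∧
    (∀ μ : Cardinal.{u}, ℵ₀ ≤ μ → μ ^ ℵ₀ = μ →
      (¬ NegRel (Order.succ (Order.succ μ)) (Order.succ μ) ↔ PairBdd μ)) ∧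
    (∀ (k : Cardinal.{u}) (m : ℕ), ℵ₀ ≤ k → ¬ NegRel (Order.succ^[m] k) k →
      ∃ μ : Cardinal.{u}, k = Order.succ μ ∧ μ ^ ℵ₀ = μ) ∧
    (∀ μ : Cardinal.{u}, ℵ₀ ≤ μ →
      (∃ g : (Order.succ (Order.succ μ)).ord.ToType → (Order.succ μ).ord.ToType → μ.ord.ToType,
        ∀ a b, a ≠ b → ∃ c, ∀ x, c < x → g a x ≠ g b x) →
      NegRel (Order.succ (Order.succ μ)) (Order.succ μ)) ∧
    ((∃ l : Cardinal.{u}, Order.succ 𝔠 < l ∧ NegRel l (Order.succ 𝔠)) ↔
      ¬ Transfer (Order.succ (Order.succ (𝔠 : Cardinal.{u}))) (Order.succ 𝔠) (Order.succ 𝔠) 𝔠) ∧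
    ((∃ l : Cardinal.{u}, Order.succ 𝔠 < l ∧ NegRel l (Order.succ 𝔠)) ↔ ¬ PairBdd.{u} 𝔠) := by
  have hE := equivs hMod hCol mPOS
  have hE2 : ∀ μ : Cardinal.{u}, ℵ₀ ≤ μ → μ ^ ℵ₀ = μ →
      (¬ NegRel (Order.succ (Order.succ μ)) (Order.succ μ) ↔ PairBdd μ) := by
    intro μ hμ hp
    rw [(hE μ hμ hp).1, fin_iff_pair μ hμ]
  have hQ : (∃ l : Cardinal.{u}, Order.succ 𝔠 < l ∧ NegRel l (Order.succ 𝔠)) ↔
      NegRel (Order.succ (Order.succ (𝔠 : Cardinal.{u}))) (Order.succ 𝔠) := by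
    constructor
    · rintro ⟨l, hl, h⟩
      exact negRel_mono _ _ l (Order.succ_le_of_lt hl) h
    · intro h
      exact ⟨_, Order.lt_succ _, h⟩
  refine ⟨fun k hk => ⟨fun h => ?_, ?_⟩, hE2, fun k m hk h => ?_, ?_, ?_, ?_⟩
  · obtain ⟨μ, rfl, hμ, hp⟩ := only_if hDec hHau hRho k 1 hk h
    exact ⟨μ, rfl, hp, (hE μ hμ hp).2.1 h⟩
  · rintro ⟨μ, rfl, hp, ht⟩
    have hμ : ℵ₀ ≤ μ := by
      by_contra hcon
      rw [not_le] at hcon
      have := isSuccLimit_aleph0.succ_lt hcon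
      exact absurd hk (not_le.2 this)
    exact (hE μ hμ hp).2.2 ht
  · obtain ⟨μ, h1, -, h2⟩ := only_if hDec hHau hRho k m hk h
    exact ⟨μ, h1, h2⟩
  · rintro μ hμ ⟨g, hg⟩
    exact neg_of_not_pair μ hμ (not_pair μ hμ g hg)
  · rw [hQ, ← (hE 𝔠 aleph0_le_continuum continuum_power_aleph0).2, not_not]
  · rw [hQ, ← hE2 𝔠 aleph0_le_continuum continuum_power_aleph0, not_not]

end Pool.Agent.Helper36.CQ
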