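import Pool.Agent.Helper36.CQ.Pos

/-! Colourings of pairs (project CQ, MP_f663dd_lc). -/

set_option autoImplicit false

namespace Pool.Agent.Helper36.CQ
open Cardinal Set Pool.Agent.Helper83.CK
universe u

theorem mk_finset_sub_le {α : Type u} {μ : Cardinal.{u}} (hμ : ℵ₀ ≤ μ) (Z : Set α) (hZ : #Z ≤ μ) :
    #({s : Finset α | (s : Set α) ⊆ Z} : Set (Finset α)) ≤ μ := by
  classical
  have h1 : #({s : Finset α | (s : Set α) ⊆ Z} : Set (Finset α)) ≤ #(Finset Z) := by
    refine mk_le_of_injective (f := fun s => s.1.subtype (· ∈ Z)) ?_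
    intro s t hst
    apply Subtype.ext
    ext x
    have hst' : s.1.subtype (· ∈ Z) = t.1.subtype (· ∈ Z) := hst
    constructor
    · intro hx
      have h2 : (⟨x, s.2 hx⟩ : Z) ∈ s.1.subtype (· ∈ Z) := Finset.mem_subtype.2 hx
      rw [hst'] at h2
      exact Finset.mem_subtype.1 h2
    · intro hx
      have h2 : (⟨x, t.2 hx⟩ : Z) ∈ t.1.subtype (· ∈ Z) := Finset.mem_subtype.2 hx
      rw [← hst'] at h2
      exact Finset.mem_subtype.1 h2
  refine h1.trans ?_
  rcases finite_or_infinite Z with hf | hi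
  · have := Fintype.ofFinite Z
    exact le_trans (lt_aleph0_of_finite (Finset Z)).le hμ
  · rw [mk_finset_of_infinite]
    exact hZ

/-- bounded colourings of pairs give the finite colouring property -/
theorem fin_of_pair {α γ : Type u} [LinearOrder α] [WellFoundedLT α] [LinearOrder γ]
    [WellFoundedLT γ] {μ : Cardinal.{u}} (hμ : ℵ₀ ≤ μ) (hg : #γ = Order.succ μ)
    (hIg : ∀ b : γ, #(Iio b) ≤ μ) (hIa : ∀ a : α, #(Iio a) ≤ #γ)
    (hP : ∀ f : α → α → γ, ∃ (X : Set α) (c : γ), #X = #γ ∧ ∀ a ∈ X, ∀ b ∈ X, a < b → f a b ≤ c) :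
    FinCol α γ := by
  classical
  intro F
  have hlt : μ < #γ := by rw [hg]; exact Order.lt_succ μ
  have hne : Nonempty γ := by
    rw [← mk_ne_zero_iff]
    exact (lt_of_lt_of_le aleph0_pos (hμ.trans hlt.le)).ne'
  have hone : (1 : Cardinal.{u}) ≤ μ := le_trans (by exact_mod_cast one_le_aleph0) hμ
  have hIc : ∀ b : γ, #(Iic b) ≤ μ := by
    intro b
    have := Iic_le hμ Set.univ b (by rw [univ_inter]; exact hIg b)
    rwa [univ_inter] at this
  obtain ⟨j, hj⟩ := exists_code hne hIa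
  let D : α → Set γ := fun b => {ν | ∀ s : Finset α, (∀ a ∈ s, a = b ∨ (a < b ∧ j b a < ν)) → F s < ν}
  have hDun : ∀ b x, ∃ ν ∈ D b, x < ν := by
    intro b x
    let Z : γ → Set α := fun ξ => {a | a = b ∨ (a < b ∧ j b a ≤ ξ)}
    have hZ : ∀ ξ, #(Z ξ) ≤ μ := by
      intro ξ
      have h1 : Z ξ ⊆ {b} ∪ {a | a < b ∧ j b a ≤ ξ} := by
        rintro a (ha | ha)
        · exact Or.inl ha
        · exact Or.inr ha
      have h2 : #({a | a < b ∧ j b a ≤ ξ} : Set α) ≤ #(Iic ξ) := by
        let f : ({a | a < b ∧ j b a ≤ ξ} : Set α) → Iic ξ := fun a => ⟨j b a.1, a.2.2⟩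
        refine mk_le_of_injective (f := f) ?_
        intro a a' haa
        have h3 : j b a.1 = j b a'.1 := by
          have := congrArg Subtype.val haa
          exact this
        exact Subtype.ext (hj b _ a.2.1 _ a'.2.1 h3)
      refine (mk_le_mk_of_subset h1).trans ((mk_union_le _ _).trans ?_)
      rw [mk_singleton]
      calc _ ≤ μ + μ := add_le_add hone (h2.trans (hIc ξ))
        _ = μ := add_eq_self hμ
    obtain ⟨ν, h1, h2⟩ := closure_point hμ hlt hIg (fun ξ => F '' {s : Finset α | (s : Set α) ⊆ Z ξ})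
      (fun ξ => mk_image_le.trans (mk_finset_sub_le hμ _ (hZ ξ))) {x} (by rw [mk_singleton]; exact hone)
    refine ⟨ν, ?_, h1 x rfl⟩
    intro s hs
    have h3 : ∃ ξ < ν, ∀ a ∈ s, a = b ∨ (a < b ∧ j b a ≤ ξ) := by
      clear h2
      induction s using Finset.induction_on with
      | empty => exact ⟨x, h1 x rfl, by simp⟩
      | insert a s _ ih =>
          obtain ⟨ξ, hξ, hs'⟩ := ih (fun c hc => hs c (Finset.mem_insert_of_mem hc))
          rcases hs a (Finset.mem_insert_self a s) with ha | ⟨ha, ha'⟩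
          · refine ⟨ξ, hξ, fun c hc => ?_⟩
            rcases Finset.mem_insert.1 hc with rfl | hc
            · exact Or.inl ha
            · exact hs' c hc
          · refine ⟨max ξ (j b a), max_lt hξ ha', fun c hc => ?_⟩
            rcases Finset.mem_insert.1 hc with rfl | hc
            · exact Or.inr ⟨ha, le_max_right _ _⟩
            · rcases hs' c hc with h | ⟨h, h'⟩
              · exact Or.inl h
              · exact Or.inr ⟨h, h'.trans (le_max_left _ _)⟩
    obtain ⟨ξ, hξ, hs'⟩ := h3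
    exact h2 ξ hξ _ ⟨s, fun a ha => hs' a ha, rfl⟩
  have hf : ∀ a b : α, ∃ ν, ν ∈ D b ∧ j b a < ν := fun a b => by
    obtain ⟨ν, h1, h2⟩ := hDun b (j b a)
    exact ⟨ν, h1, h2⟩
  choose f hf1 hf2 using hf
  obtain ⟨X0, c, hX0, hc⟩ := hP f
  let X1 : Set α := {b | b ∈ X0 ∧ ∃ a ∈ X0, a < b}
  have hX1 : μ < #X1 := by
    by_contra hcon
    rw [not_lt] at hcon
    have h1 : #(X0 \ X1 : Set α) ≤ 1 := by
      rw [mk_le_one_iff_set_subsingleton]
      intro a ha b hb
      by_contra hab
      rcases lt_or_gt_of_ne hab with h | h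
      · exact hb.2 ⟨hb.1, a, ha.1, h⟩
      · exact ha.2 ⟨ha.1, b, hb.1, h⟩
    have h2 : #X0 ≤ μ := by
      calc #X0 ≤ #((X0 \ X1) ∪ X1 : Set α) := by
            apply mk_le_mk_of_subset
            intro a ha
            by_cases h : a ∈ X1
            · exact Or.inr h
            · exact Or.inl ⟨ha, h⟩
        _ ≤ #(X0 \ X1 : Set α) + #X1 := mk_union_le _ _
        _ ≤ μ + μ := add_le_add (h1.trans hone) hcon
        _ = μ := add_eq_self hμ
    rw [hX0] at h2
    exact absurd h2 (not_le.2 hlt)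
  -- least upper bounds
  have hσ : ∀ b : α, ∃ σ : γ, b ∈ X1 → (∀ a ∈ X0, a < b → f a b ≤ σ) ∧ σ ≤ c ∧
      ∀ x < σ, ∃ a ∈ X0, a < b ∧ x < f a b := by
    intro b
    by_cases hb : b ∈ X1
    · obtain ⟨σ, h1, h2⟩ := WellFounded.has_min (wellFounded_lt (α := γ))
        {σ | ∀ a ∈ X0, a < b → f a b ≤ σ} ⟨c, fun a ha hab => hc a ha b hb.1 hab⟩
      refine ⟨σ, fun _ => ⟨h1, not_lt.1 (h2 c (fun a ha hab => hc a ha b hb.1 hab)), ?_⟩⟩
      intro x hx
      by_contra hcon
      push Not at hcon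
      exact h2 x hcon hx
    · exact ⟨c, fun h => absurd h hb⟩
  choose σ hσ' using hσ
  have hσD : ∀ b ∈ X1, σ b ∈ D b := by
    intro b hb
    obtain ⟨h1, -, h3⟩ := hσ' b hb
    intro s hs
    obtain ⟨a0, ha0, hab0⟩ := hb.2
    have h4 : ∃ a ∈ X0, a < b ∧ ∀ d ∈ s, d = b ∨ (d < b ∧ j b d < f a b) := by
      induction s using Finset.induction_on with
      | empty => exact ⟨a0, ha0, hab0, by simp⟩
      | insert d s _ ih =>
          obtain ⟨a, ha, hab, hs'⟩ := ih (fun e he => hs e (Finset.mem_insert_of_mem he))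
          rcases hs d (Finset.mem_insert_self d s) with hd | ⟨hd, hd'⟩
          · refine ⟨a, ha, hab, fun e he => ?_⟩
            rcases Finset.mem_insert.1 he with rfl | he
            · exact Or.inl hd
            · exact hs' e he
          · obtain ⟨a', ha', hab', hx⟩ := h3 _ hd'
            rcases le_total (f a b) (f a' b) with hl | hl
            · refine ⟨a', ha', hab', fun e he => ?_⟩
              rcases Finset.mem_insert.1 he with rfl | he
              · exact Or.inr ⟨hd, hx⟩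
              · rcases hs' e he with h | ⟨h, h'⟩
                · exact Or.inl h
                · exact Or.inr ⟨h, h'.trans_le hl⟩
            · refine ⟨a, ha, hab, fun e he => ?_⟩
              rcases Finset.mem_insert.1 he with rfl | he
              · exact Or.inr ⟨hd, hx.trans_le hl⟩
              · exact hs' e he
    obtain ⟨a, ha, hab, hs'⟩ := h4
    exact lt_of_lt_of_le (hf1 a b s hs') (h1 a ha hab)
  -- pigeonhole
  have hpig : ∃ σ0, μ < #({b | b ∈ X1 ∧ σ b = σ0} : Set α) := by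
    by_contra hcon
    push Not at hcon
    have h1 : X1 ⊆ ⋃ x : Iic c, {b | b ∈ X1 ∧ σ b = x} := by
      intro b hb
      exact mem_iUnion.2 ⟨⟨σ b, (hσ' b hb).2.1⟩, hb, rfl⟩
    have h2 : #X1 ≤ μ := by
      refine (mk_le_mk_of_subset h1).trans ((mk_iUnion_le _).trans ?_)
      calc _ ≤ μ * μ := mul_le_mul' (hIc c) (ciSup_le' fun x => hcon _)
        _ = μ := mul_eq_self hμ
    exact absurd h2 (not_le.2 hX1)
  obtain ⟨σ0, hσ0⟩ := hpig
  refine ⟨{b | b ∈ X1 ∧ σ b = σ0}, ?_, ?_⟩
  · apply le_antisymm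
    · rw [← hX0]
      exact mk_le_mk_of_subset fun b hb => hb.1.1
    · rw [hg]
      exact Order.succ_le_of_lt hσ0
  · have h1 : (F '' {s : Finset α | (s : Set α) ⊆ {b | b ∈ X1 ∧ σ b = σ0}} : Set γ) ⊆
        {F ∅} ∪ Iio σ0 := by
      rintro d ⟨s, hs, rfl⟩
      rcases s.eq_empty_or_nonempty with rfl | hne
      · exact Or.inl rfl
      · right
        have hb := s.max'_mem hne
        have hbX := hs hb
        have h2 := hσD _ hbX.1 s (by
          intro a ha
          rcases eq_or_lt_of_le (s.le_max' a ha) with h | h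
          · exact Or.inl h
          · exact Or.inr ⟨h, lt_of_lt_of_le (hf2 a _) ((hσ' _ hbX.1).1 a (hs ha).1.1 h)⟩)
        rw [hbX.2] at h2
        exact h2
    rw [hg]
    refine Order.lt_succ_iff.2 ((mk_le_mk_of_subset h1).trans ((mk_union_le _ _).trans ?_))
    rw [mk_singleton]
    calc _ ≤ μ + μ := add_le_add hone (hIg σ0)
      _ = μ := add_eq_self hμ

/-- the converse -/
theorem pair_of_fin {α γ : Type u} [LinearOrder α] [LinearOrder γ] {μ : Cardinal.{u}} (hμ : ℵ₀ ≤ μ)
    (hg : #γ = Order.succ μ) (hIg : ∀ b : γ, #(Iio b) ≤ μ) (hF : FinCol α γ) (f : α → α → γ) :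
    ∃ (X : Set α) (c : γ), #X = #γ ∧ ∀ a ∈ X, ∀ b ∈ X, a < b → f a b ≤ c := by
  classical
  have hlt : μ < #γ := by rw [hg]; exact Order.lt_succ μ
  have hne : Nonempty γ := by
    rw [← mk_ne_zero_iff]
    exact (lt_of_lt_of_le aleph0_pos (hμ.trans hlt.le)).ne'
  obtain ⟨X, hX, hc⟩ := hF (fun s => if h : s.Nonempty then f (s.min' h) (s.max' h)
    else Classical.arbitrary γ)
  rw [hg] at hc
  obtain ⟨c, -, hb⟩ := bound hμ hIg Set.univ (by rw [mk_univ]; exact hlt) _ (Order.lt_succ_iff.1 hc)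
  refine ⟨X, c, hX, fun a ha b hb' hab => ?_⟩
  have h1 : ({a, b} : Finset α).Nonempty := ⟨a, by simp⟩
  have h2 : ({a, b} : Finset α).min' h1 = a := by
    apply le_antisymm
    · exact Finset.min'_le _ _ (by simp)
    · refine Finset.le_min' _ _ _ fun y hy => ?_
      rcases Finset.mem_insert.1 hy with rfl | hy
      · exact le_rfl
      · rw [Finset.mem_singleton.1 hy]; exact hab.le
  have h3 : ({a, b} : Finset α).max' h1 = b := by
    apply le_antisymm
    · refine Finset.max'_le _ _ _ fun y hy => ?_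
      rcases Finset.mem_insert.1 hy with rfl | hy
      · exact hab.le
      · rw [Finset.mem_singleton.1 hy]
    · exact Finset.le_max' _ _ (by simp)
  have h4 := hb (f a b) ⟨{a, b}, ?_, ?_⟩
  · exact h4.le
  · intro x hx
    simp only [Finset.coe_insert, Finset.coe_singleton, mem_insert_iff, mem_singleton_iff] at hx
    rcases hx with rfl | rfl
    · exact ha
    · exact hb'
  · show (if h : ({a, b} : Finset α).Nonempty then f (({a, b} : Finset α).min' h)
      (({a, b} : Finset α).max' h) else Classical.arbitrary γ) = f a b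
    rw [dif_pos h1, h2, h3]

end Pool.Agent.Helper36.CQ
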