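import Pool.Agent.Helper36.CQ.St

/-! Module POS of project CQ: the finite colouring property of `(μ⁺⁺, μ⁺)` gives, if `μ^ω = μ`, sets of
size `μ⁺` whose countable subsets get at most `μ` colours. -/

set_option autoImplicit false

namespace Pool.Agent.Helper36.CQ
open Cardinal Set Pool.Agent.Helper83.CK
universe u

theorem exists_order (γ : Type u) : ∃ I : LinearOrder γ,
    (@WellFoundedLT γ I.toLT) ∧ ∀ b : γ, #(@Iio γ I.toPreorder b) < #γ := by
  have e : Nonempty (γ ≃ (#γ).ord.ToType) := by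
    rw [← Cardinal.eq, mk_ord_toType]
  obtain ⟨e⟩ := e
  refine ⟨LinearOrder.lift' e e.injective, ?_, ?_⟩
  · constructor
    exact InvImage.wf e (wellFounded_lt (α := (#γ).ord.ToType))
  · intro b
    have h := mk_Iio_toType_ord_lt (c := #γ) (e b)
    refine lt_of_le_of_lt ?_ h
    refine mk_le_of_injective (f := fun x => ⟨e x.1, ?_⟩) ?_
    · exact x.2
    · intro x y hxy
      have h2 : e x.1 = e y.1 := congrArg Subtype.val hxy
      exact Subtype.ext (e.injective h2)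

theorem Iic_le {γ : Type u} [LinearOrder γ] {μ : Cardinal.{u}} (hμ : ℵ₀ ≤ μ) (Z : Set γ) (b : γ)
    (hI : #(Z ∩ Iio b : Set γ) ≤ μ) : #(Z ∩ Iic b : Set γ) ≤ μ := by
  have h1 : (Z ∩ Iic b : Set γ) ⊆ (Z ∩ Iio b) ∪ {b} := by
    rintro x ⟨hx, hxb⟩
    rcases lt_or_eq_of_le hxb with h | h
    · exact Or.inl ⟨hx, h⟩
    · exact Or.inr h
  calc #(Z ∩ Iic b : Set γ) ≤ #((Z ∩ Iio b) ∪ {b} : Set γ) := mk_le_mk_of_subset h1
    _ ≤ #(Z ∩ Iio b : Set γ) + #({b} : Set γ) := mk_union_le _ _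
    _ ≤ μ + μ := by
        refine add_le_add hI ?_
        rw [mk_singleton]
        exact le_trans (by exact_mod_cast one_le_aleph0) hμ
    _ = μ := add_eq_self hμ

theorem bound {γ : Type u} [LinearOrder γ] {μ : Cardinal.{u}} (hμ : ℵ₀ ≤ μ)
    (hI : ∀ b : γ, #(Iio b) ≤ μ) (Z : Set γ) (hZ : μ < #Z) (Y : Set γ) (hY : #Y ≤ μ) :
    ∃ b ∈ Z, ∀ y ∈ Y, y < b := by
  by_contra h
  push Not at h
  have hU : Z ⊆ ⋃ y : Y, Z ∩ Iic (y : γ) := by
    intro c hc
    obtain ⟨y, hy, hcy⟩ := h c hc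
    exact mem_iUnion.2 ⟨⟨y, hy⟩, hc, hcy⟩
  have h1 : #(⋃ y : Y, Z ∩ Iic (y : γ) : Set γ) ≤ #Y * ⨆ y : Y, #(Z ∩ Iic (y : γ) : Set γ) :=
    mk_iUnion_le _
  have h2 : (⨆ y : Y, #(Z ∩ Iic (y : γ) : Set γ)) ≤ μ := by
    apply ciSup_le'
    intro y
    exact Iic_le hμ Z y (le_trans (mk_le_mk_of_subset inter_subset_right) (hI _))
  have h3 : #Z ≤ μ := by
    calc #Z ≤ #(⋃ y : Y, Z ∩ Iic (y : γ) : Set γ) := mk_le_mk_of_subset hU
      _ ≤ _ := h1
      _ ≤ μ * μ := mul_le_mul' hY h2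
      _ = μ := mul_eq_self hμ
  exact absurd h3 (not_le.2 hZ)

/-- closure points -/
theorem closure_point {γ : Type u} [LinearOrder γ] [WellFoundedLT γ] {μ : Cardinal.{u}}
    (hμ : ℵ₀ ≤ μ) (hg : μ < #γ) (hI : ∀ b : γ, #(Iio b) ≤ μ) (H : γ → Set γ)
    (hH : ∀ ξ, #(H ξ) ≤ μ) (Y : Set γ) (hY : #Y ≤ μ) :
    ∃ δ : γ, (∀ y ∈ Y, y < δ) ∧ ∀ ξ < δ, ∀ η ∈ H ξ, η < δ := by
  have hu : μ < #(Set.univ : Set γ) := by rw [mk_univ]; exact hg
  have bd : ∀ Y : Set γ, #Y ≤ μ → ∃ b : γ, ∀ y ∈ Y, y < b := by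
    intro Y hY
    obtain ⟨b, -, hb⟩ := bound hμ hI Set.univ hu Y hY
    exact ⟨b, hb⟩
  have hone : (1 : Cardinal.{u}) ≤ μ := le_trans (by exact_mod_cast one_le_aleph0) hμ
  have hnext : ∀ b : γ, ∃ c : γ, b < c ∧ ∀ ξ ≤ b, ∀ η ∈ H ξ, η < c := by
    intro b
    have h1 : #(⋃ ξ : Iic b, H ξ : Set γ) ≤ #(Iic b) * ⨆ ξ : Iic b, #(H ξ) := mk_iUnion_le _
    have h2 : #(Iic b) ≤ μ := by
      have := Iic_le hμ Set.univ b (by rw [univ_inter]; exact hI b)
      rwa [univ_inter] at this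
    have h3 : #(⋃ ξ : Iic b, H ξ : Set γ) ≤ μ := by
      refine h1.trans ?_
      calc #(Iic b) * ⨆ ξ : Iic b, #(H ξ) ≤ μ * μ := mul_le_mul' h2 (ciSup_le' fun ξ => hH _)
        _ = μ := mul_eq_self hμ
    have h4 : #((⋃ ξ : Iic b, H ξ) ∪ {b} : Set γ) ≤ μ := by
      refine (mk_union_le _ _).trans ?_
      rw [mk_singleton]
      calc _ ≤ μ + μ := add_le_add h3 hone
        _ = μ := add_eq_self hμ
    obtain ⟨c, hc⟩ := bd _ h4
    exact ⟨c, hc b (Or.inr rfl), fun ξ hξ η hη => hc η (Or.inl (mem_iUnion.2 ⟨⟨ξ, hξ⟩, hη⟩))⟩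
  choose nx hnx1 hnx2 using hnext
  obtain ⟨b0, hb0⟩ := bd Y hY
  let b : ℕ → γ := fun n => nx^[n] b0
  have hbs : ∀ n, b (n + 1) = nx (b n) := fun n => Function.iterate_succ_apply' nx n b0
  have hr : #(Set.range b) ≤ μ := by
    have h5 : (Set.range b).Countable := countable_range b
    exact le_trans h5.le_aleph0 hμ
  obtain ⟨c, hc⟩ := bd _ hr
  let S : Set γ := {δ | ∀ n, b n < δ}
  have hS : S.Nonempty := ⟨c, fun n => hc _ ⟨n, rfl⟩⟩
  obtain ⟨δ, hδ, hmin⟩ := WellFounded.has_min (wellFounded_lt (α := γ)) S hS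
  refine ⟨δ, fun y hy => lt_trans (hb0 y hy) (hδ 0), ?_⟩
  intro ξ hξ η hη
  have h6 : ξ ∉ S := fun h => hmin ξ h hξ
  simp only [S, mem_ofPred_eq, not_forall, not_lt] at h6
  obtain ⟨n, hn⟩ := h6
  have h7 : η < b (n + 1) := by rw [hbs]; exact hnx2 _ _ hn _ hη
  exact lt_trans h7 (hδ _)

/-- inverse of a coding: for every `a` an inverse of `j a` on `Iio a`. -/
theorem exists_inverse {α γ : Type u} [LinearOrder α] (j : α → α → γ)
    (hj : ∀ a : α, ∀ b < a, ∀ c < a, j a b = j a c → b = c) :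
    ∃ e : α → γ → α, ∀ a : α, ∀ b < a, e a (j a b) = b := by
  classical
  refine ⟨fun a ξ => if h : ∃ b, b < a ∧ j a b = ξ then h.choose else a, ?_⟩
  intro a b hb
  have h : ∃ c, c < a ∧ j a c = j a b := ⟨b, hb, rfl⟩
  show (if h : ∃ c, c < a ∧ j a c = j a b then h.choose else a) = b
  rw [dif_pos h]
  exact hj a _ h.choose_spec.1 _ hb h.choose_spec.2

theorem exists_code {α γ : Type u} [LinearOrder α] (hγ : Nonempty γ)
    (hI : ∀ a : α, #(Iio a) ≤ #γ) :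
    ∃ j : α → α → γ, ∀ a : α, ∀ b < a, ∀ c < a, j a b = j a c → b = c := by
  classical
  have h : ∀ a : α, Nonempty (Iio a ↪ γ) := fun a => Cardinal.le_def _ _ |>.1 (hI a)
  let f : ∀ a : α, Iio a ↪ γ := fun a => (h a).some
  refine ⟨fun a b => if hb : b < a then f a ⟨b, hb⟩ else Classical.arbitrary γ, ?_⟩
  intro a b hb c hc hbc
  have hbc' : (if hb : b < a then f a ⟨b, hb⟩ else Classical.arbitrary γ) =
    (if hb : c < a then f a ⟨c, hb⟩ else Classical.arbitrary γ) := hbc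
  rw [dif_pos hb, dif_pos hc] at hbc'
  exact congrArg Subtype.val ((f a).injective hbc')

/-- an eventually different family -/
theorem exists_different {α γ : Type u} [LinearOrder α] [WellFoundedLT α] [LinearOrder γ]
    (hγ : Nonempty γ) (j : α → α → γ)
    (hj : ∀ a : α, ∀ b < a, ∀ c < a, j a b = j a c → b = c)
    (hI : ∀ b : γ, #(Iic b) < #γ) :
    ∃ G : α → γ → γ, ∀ a : α, ∀ b < a, ∀ ξ : γ, j a b ≤ ξ → G a ξ ≠ G b ξ := by
  classical
  let W : WellFounded (fun a b : α => a < b) := wellFounded_lt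
  let step : (a : α) → ((b : α) → b < a → γ → γ) → γ → γ := fun a rec ξ =>
    Classical.epsilon (fun c : γ => ∀ (b : α) (hb : b < a), j a b ≤ ξ → c ≠ rec b hb ξ)
  let G : α → γ → γ := W.fix step
  have hG : ∀ a, G a = step a (fun b _ => G b) := fun a => W.fix_eq step a
  refine ⟨G, fun a b hb ξ hξ => ?_⟩
  have hex : ∃ c : γ, ∀ (b : α) (hb : b < a), j a b ≤ ξ → c ≠ G b ξ := by
    by_contra hcon
    push Not at hcon
    choose f hf1 hf2 hf3 using hcon
    have hinj : Function.Injective (fun c : γ => (⟨j a (f c), hf2 c⟩ : Iic ξ)) := by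
      intro c c' hcc
      have h1 : j a (f c) = j a (f c') := congrArg Subtype.val hcc
      have h2 : f c = f c' := hj a _ (hf1 c) _ (hf1 c') h1
      rw [hf3 c, hf3 c', h2]
    exact absurd (mk_le_of_injective hinj) (not_le.2 (hI ξ))
  have hspec := Classical.epsilon_spec hex
  have h2 : G a ξ = Classical.epsilon
      (fun c : γ => ∀ (b : α) (_ : b < a), j a b ≤ ξ → c ≠ G b ξ) := by
    rw [hG a]
  rw [h2]
  exact hspec b hb hξ

/-- The key step with the orders given. -/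
theorem core {α γ : Type u} [LinearOrder α] [WellFoundedLT α] [LinearOrder γ] [WellFoundedLT γ]
    {μ : Cardinal.{u}} (hμ : ℵ₀ ≤ μ) (hp : μ ^ ℵ₀ = μ) (hg : #γ = Order.succ μ)
    (hIg : ∀ b : γ, #(Iio b) ≤ μ) (hIa : ∀ a : α, #(Iio a) ≤ #γ)
    (hF : FinCol α γ) (F : Set α → γ) :
    ∃ X : Set α, #X = #γ ∧ #(F '' Om X) ≤ μ := by
  classical
  have hlt : μ < #γ := by rw [hg]; exact Order.lt_succ μ
  have hne : Nonempty γ := by
    rw [← mk_ne_zero_iff]
    exact (lt_of_lt_of_le aleph0_pos (hμ.trans hlt.le)).ne'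
  have hone : (1 : Cardinal.{u}) ≤ μ := le_trans (by exact_mod_cast one_le_aleph0) hμ
  have hIc : ∀ b : γ, #(Iic b) ≤ μ := by
    intro b
    have := Iic_le hμ Set.univ b (by rw [univ_inter]; exact hIg b)
    rwa [univ_inter] at this
  obtain ⟨N, hN⟩ : ∃ N : Type u, #N = μ := ⟨μ.out, mk_out μ⟩
  have hneN : Nonempty N := by
    rw [← mk_ne_zero_iff, hN]
    exact (lt_of_lt_of_le aleph0_pos hμ).ne'
  obtain ⟨j, hj⟩ := exists_code hne hIa
  obtain ⟨e, he⟩ := exists_inverse j hj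
  obtain ⟨j', hj'⟩ := exists_code (α := γ) hneN (fun b => by rw [hN]; exact hIg b)
  obtain ⟨d, hd⟩ := exists_inverse j' hj'
  obtain ⟨G, hG⟩ := exists_different hne j hj (fun b => lt_of_le_of_lt (hIc b) hlt)
  have hNN : #(ℕ → N) = μ := by
    rw [mk_arrow, hN]
    simpa using hp
  obtain ⟨h⟩ : Nonempty (N ≃ (ℕ → N)) := by rw [← Cardinal.eq, hNN, hN]
  let φ : α → γ → N → γ := fun a β i => F (Set.range fun n => e a (d β (h i n)))
  -- the closure ordinals
  let P : Finset α → γ → Prop := fun s δ => (∀ a ∈ s, ∀ b ∈ s, j a b < δ) ∧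
    ∀ ξ < δ, (∀ a ∈ s, G a ξ < δ) ∧ ∀ a ∈ s, ∀ i, φ a ξ i < δ
  have hPex : ∀ s : Finset α, ∃ δ, P s δ := by
    intro s
    have hsc : ∀ f : α → γ, #(f '' (s : Set α)) ≤ μ := by
      intro f
      exact le_trans (s.finite_toSet.image f).countable.le_aleph0 hμ
    have hY : #((fun p : α × α => j p.1 p.2) '' ((s ×ˢ s : Finset (α × α)) : Set (α × α)) : Set γ)
        ≤ μ := le_trans ((s ×ˢ s).finite_toSet.image _).countable.le_aleph0 hμ
    have hH : ∀ ξ : γ, #(((fun a => G a ξ) '' (s : Set α)) ∪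
        (⋃ a : (s : Set α), Set.range (φ a ξ)) : Set γ) ≤ μ := by
      intro ξ
      refine (mk_union_le _ _).trans ?_
      calc _ ≤ μ + μ := by
            refine add_le_add (hsc _) ?_
            refine (mk_iUnion_le _).trans ?_
            calc _ ≤ μ * μ := by
                  refine mul_le_mul' ?_ (ciSup_le' fun a => ?_)
                  · exact le_trans s.finite_toSet.countable.le_aleph0 hμ
                  · rw [← hN]; exact mk_range_le
              _ = μ := mul_eq_self hμ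
        _ = μ := add_eq_self hμ
    obtain ⟨δ, h1, h2⟩ := closure_point hμ hlt hIg _ hH _ hY
    refine ⟨δ, fun a ha b hb => h1 _ ⟨(a, b), ?_, rfl⟩, fun ξ hξ => ⟨fun a ha => ?_, fun a ha i => ?_⟩⟩
    · exact Finset.mem_coe.2 (Finset.mem_product.2 ⟨ha, hb⟩)
    · exact h2 ξ hξ _ (Or.inl ⟨a, ha, rfl⟩)
    · exact h2 ξ hξ _ (Or.inr (mem_iUnion.2 ⟨⟨a, ha⟩, ⟨i, rfl⟩⟩))
  have hmin : ∀ s : Finset α, ∃ δ, P s δ ∧ ∀ δ', P s δ' → δ ≤ δ' := by
    intro s
    obtain ⟨δ, hδ, hm⟩ := WellFounded.has_min (wellFounded_lt (α := γ)) {δ | P s δ} (hPex s)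
    exact ⟨δ, hδ, fun δ' h' => not_lt.1 (hm δ' h')⟩
  choose Fs hFs1 hFs2 using hmin
  have hmono : ∀ s s' : Finset α, s ⊆ s' → Fs s ≤ Fs s' := by
    intro s s' hss
    refine hFs2 s _ ⟨fun a ha b hb => (hFs1 s').1 a (hss ha) b (hss hb), fun ξ hξ => ?_⟩
    exact ⟨fun a ha => ((hFs1 s').2 ξ hξ).1 a (hss ha),
      fun a ha i => ((hFs1 s').2 ξ hξ).2 a (hss ha) i⟩
  obtain ⟨X0, hX0, hcol⟩ := hF Fs
  let D : Set γ := {ξ | ∃ s : Finset α, (s : Set α) ⊆ X0 ∧ ξ < Fs s}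
  have hD : #D ≤ μ := by
    have h1 : #(Fs '' {s : Finset α | (s : Set α) ⊆ X0} : Set γ) ≤ μ := by
      rw [hg] at hcol
      exact Order.lt_succ_iff.1 hcol
    obtain ⟨b, -, hb⟩ := bound hμ hIg Set.univ (by rw [mk_univ]; exact hlt) _ h1
    refine le_trans (mk_le_mk_of_subset ?_) (hIg b)
    rintro ξ ⟨s, hs, hξ⟩
    exact lt_trans hξ (hb _ ⟨s, hs, rfl⟩)
  have hDj : ∀ a ∈ X0, ∀ b ∈ X0, j a b ∈ D := by
    intro a ha b hb
    refine ⟨{a, b}, ?_, ?_⟩
    · intro x hx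
      simp only [Finset.coe_insert, Finset.coe_singleton, mem_insert_iff, mem_singleton_iff] at hx
      rcases hx with rfl | rfl
      · exact ha
      · exact hb
    · exact (hFs1 {a, b}).1 a (by simp) b (by simp)
  have hins : ∀ ξ ∈ D, ∀ a ∈ X0, ∃ s : Finset α, (s : Set α) ⊆ X0 ∧ ξ < Fs s ∧ a ∈ s := by
    rintro ξ ⟨s, hs, hξ⟩ a ha
    refine ⟨insert a s, ?_, lt_of_lt_of_le hξ (hmono _ _ (Finset.subset_insert a s)), by simp⟩
    rw [Finset.coe_insert]
    exact insert_subset ha hs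
  have hDG : ∀ ξ ∈ D, ∀ a ∈ X0, G a ξ ∈ D := by
    intro ξ hξ a ha
    obtain ⟨s, hs, h1, h2⟩ := hins ξ hξ a ha
    exact ⟨s, hs, ((hFs1 s).2 ξ h1).1 a h2⟩
  have hDφ : ∀ ξ ∈ D, ∀ a ∈ X0, ∀ i, φ a ξ i ∈ D := by
    intro ξ hξ a ha i
    obtain ⟨s, hs, h1, h2⟩ := hins ξ hξ a ha
    exact ⟨s, hs, ((hFs1 s).2 ξ h1).2 a h2 i⟩
  -- countable subsets of `D` are bounded in `D`
  have hbD : ∀ t : ℕ → γ, (∀ n, t n ∈ D) → ∃ β ∈ D, ∀ n, t n < β := by
    intro t ht
    by_contra hcon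
    push Not at hcon
    have hcard : #(ℕ → D) < #X0 := by
      rw [hX0]
      refine lt_of_le_of_lt ?_ hlt
      rw [mk_arrow]
      calc _ ≤ μ ^ ℵ₀ := by
            simp only [mk_nat, lift_aleph0, lift_id']
            exact power_le_power_right hD
        _ = μ := hp
    have hni : ¬ Function.Injective
        (fun a : X0 => (fun n => (⟨G a (t n), hDG _ (ht n) a a.2⟩ : D) : ℕ → D)) := by
      intro hi
      exact absurd (mk_le_of_injective hi) (not_le.2 hcard)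
    rw [Function.not_injective_iff] at hni
    obtain ⟨a, a', haa, hne'⟩ := hni
    have hval : ∀ n, G a (t n) = G a' (t n) := fun n => congrArg Subtype.val (congrFun haa n)
    rcases lt_or_gt_of_ne (fun hh => hne' (Subtype.ext hh) : (a : α) ≠ (a' : α)) with hl | hl
    · obtain ⟨n, hn⟩ := hcon (j a' a) (hDj _ a'.2 _ a.2)
      exact hG a' a hl _ hn (hval n).symm
    · obtain ⟨n, hn⟩ := hcon (j a a') (hDj _ a.2 _ a'.2)
      exact hG a a' hl _ hn (hval n)
  -- the initial part of `X0`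
  let X : Set α := {a | a ∈ X0 ∧ #(X0 ∩ Iio a : Set α) ≤ μ}
  have hXs : X ⊆ X0 := fun a ha => ha.1
  have hXc : #X = #γ := by
    apply le_antisymm
    · rw [← hX0]; exact mk_le_mk_of_subset hXs
    · by_contra hcon
      rw [not_le] at hcon
      have hne2 : (X0 \ X).Nonempty := by
        by_contra hem
        rw [not_nonempty_iff_eq_empty, sdiff_eq_empty] at hem
        have := mk_le_mk_of_subset hem
        rw [hX0] at this
        exact absurd this (not_le.2 hcon)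
      obtain ⟨a, haX, ham⟩ := WellFounded.has_min (wellFounded_lt (α := α)) _ hne2
      apply haX.2
      refine ⟨haX.1, ?_⟩
      have h1 : (X0 ∩ Iio a : Set α) ⊆ X := by
        rintro b ⟨hb, hba⟩
        by_contra hbX
        exact ham b ⟨hb, hbX⟩ hba
      rw [hg] at hcon
      exact (mk_le_mk_of_subset h1).trans (Order.lt_succ_iff.1 hcon)
  have hbX : ∀ x : ℕ → α, (∀ n, x n ∈ X) → ∃ a ∈ X, ∀ n, x n < a := by
    intro x hx
    by_contra hcon
    push Not at hcon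
    have h1 : X ⊆ ⋃ n : ULift.{u} ℕ, X0 ∩ Iic (x n.down) := by
      intro a ha
      obtain ⟨n, hn⟩ := hcon a ha
      exact mem_iUnion.2 ⟨⟨n⟩, ha.1, hn⟩
    have h2 : #X ≤ μ := by
      refine (mk_le_mk_of_subset h1).trans ((mk_iUnion_le _).trans ?_)
      calc _ ≤ μ * μ := by
            refine mul_le_mul' ?_ (ciSup_le' fun n => ?_)
            · simpa using hμ
            · exact Iic_le hμ X0 _ (hx n.down).2
        _ = μ := mul_eq_self hμ
    rw [hXc] at h2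
    exact absurd h2 (not_le.2 hlt)
  refine ⟨X, hXc, le_trans (mk_le_mk_of_subset ?_) hD⟩
  rintro c ⟨s, ⟨hsX, hsc⟩, rfl⟩
  obtain ⟨x, hx⟩ : ∃ x : ℕ → α, Set.range x = s := by
    have h1 : s.Countable := by rw [← le_aleph0_iff_set_countable, hsc]
    have h2 : s.Nonempty := by
      by_contra hem
      rw [not_nonempty_iff_eq_empty] at hem
      rw [hem] at hsc
      simp at hsc
      exact absurd hsc.symm aleph0_ne_zero
    obtain ⟨x, hx⟩ := h1.exists_eq_range h2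
    exact ⟨x, hx.symm⟩
  have hxX : ∀ n, x n ∈ X := fun n => hsX (hx ▸ ⟨n, rfl⟩)
  obtain ⟨a, haX, hxa⟩ := hbX x hxX
  obtain ⟨β, hβ, htβ⟩ := hbD (fun n => j a (x n)) (fun n => hDj _ (hXs haX) _ (hXs (hxX n)))
  obtain ⟨i, hi⟩ := h.surjective (fun n => j' β (j a (x n)))
  have h3 : φ a β i = F s := by
    show F (Set.range fun n => e a (d β (h i n))) = F s
    rw [← hx]
    congr 1
    congr 1
    funext n
    have h4 : h i n = j' β (j a (x n)) := congrFun hi n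
    rw [h4, hd β _ (htβ n), he a _ (hxa n)]
  rw [← h3]
  exact hDφ β hβ a (hXs haX) i

theorem mPOS : StPos.{u} := by
  intro α γ μ hμ hp hg ha hF F
  obtain ⟨Ia, hWa, hIa⟩ := exists_order α
  obtain ⟨Ig, hWg, hIg⟩ := exists_order γ
  have h1 : ∀ b : γ, #(Iio b) ≤ μ := by
    intro b
    have := hIg b
    rw [hg] at this
    exact Order.lt_succ_iff.1 this
  have h2 : ∀ a : α, #(Iio a) ≤ #γ := by
    intro a
    have := hIa a
    rw [ha] at this
    exact Order.lt_succ_iff.1 this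
  obtain ⟨X, hX, hc⟩ := core hμ hp hg h1 h2 hF F
  exact ⟨X, hX, by rw [hg]; exact Order.lt_succ_iff.2 hc⟩

end Pool.Agent.Helper36.CQ
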