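import Pool.Agent.Helper83.CK.Final

/-!
Project CQ (MP_f663dd_lc, helper36). THEOREM: for every infinite `k`, `k⁺ → [k]^ω_k` holds if and only
if `k = μ⁺`, `μ^ω = μ` and Chang's conjecture `(μ⁺⁺, μ⁺) ↠ (μ⁺, μ)` holds; and
`k^{+m} → [k]^ω_k` (any `m < ω`) implies `k = μ⁺` with `μ^ω = μ`.
-/

set_option autoImplicit false

namespace Pool.Agent.Helper36.CQ
open Cardinal Set Pool.Agent.Helper83.CK
universe u

/-- Every colouring of the finite subsets of `α` with colours in `γ` has a set of size `|γ|` whose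
finite subsets get fewer than `|γ|` colours. -/
def FinCol (α γ : Type u) : Prop :=
  ∀ F : Finset α → γ, ∃ X : Set α, #X = #γ ∧ #(F '' {s : Finset α | (s : Set α) ⊆ X} : Set γ) < #γ

/-- The classical transfer property `(lam, kap) ↠ (lam', kap')`: every structure with universe of
size `lam` for a countable language, with a distinguished subset `U` of size `kap`, has an
elementary substructure `S` with `|S| = lam'` and `|S ∩ U| = kap'`. -/
def Transfer (lam kap lam' kap' : Cardinal.{u}) : Prop :=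
  ∀ (L : FirstOrder.Language.{0, 0}) (M : Type u) [L.Structure M] (U : Set M), L.card ≤ ℵ₀ →
    #M = lam → #U = kap →
      ∃ S : L.ElementarySubstructure M, #S = lam' ∧ #((S : Set M) ∩ U : Set M) = kap'

/-- MODULE DEC. PROOF: strong induction on `k` (`Cardinal` is well-founded). If
`∀ c < k, succ c < k` take `ρ = k`, `n = 0`. Otherwise `k ≤ succ c` for some `c < k`, so `k = succ c`;
`c` is infinite (otherwise `succ c < ℵ₀ ≤ k`); take `ρ, n'` for `c` and `n = n' + 1`
(`Function.iterate_succ_apply'`). -/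
def StDec : Prop := ∀ k : Cardinal.{u}, ℵ₀ ≤ k → ∃ (ρ : Cardinal.{u}) (n : ℕ), ℵ₀ ≤ ρ ∧
  (∀ c < ρ, Order.succ c < ρ) ∧ Order.succ^[n] ρ = k

/-- MODULE HAU (Hausdorff). PROOF: induction on `n`; the step is
`(succ c) ^ ℵ₀ ≤ max (succ c) (c ^ ℵ₀)` for infinite `c`: with `W = (succ c).ord.ToType` every
function `ℕ → W` is bounded by some `a : W` (`succ c` is regular and uncountable), the functions into
`Iio a` are `≤ c ^ ℵ₀` in number (`#(Iio a) ≤ c`), so `(succ c) ^ ℵ₀ ≤ succ c * c ^ ℵ₀`. See the theorem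
`Pool.Agent.Helper90.CK.succ_pow` (Pool/Agent/Helper90/CK/M_A.lean) for the case `c ^ ℵ₀ ≤ c`; its
proof can be adapted. -/
def StHau : Prop := ∀ (ρ : Cardinal.{u}) (n : ℕ), ℵ₀ ≤ ρ →
  (Order.succ^[n] ρ) ^ ℵ₀ ≤ max (Order.succ^[n] ρ) (ρ ^ ℵ₀)

/-- MODULE RHO. PROOF from `StQ`, `StH`. Take `R ⊆ K` with `#R = ρ`. `StQ n α R` gives
`h : ℕ → (ℕ → α) → α` with `#A ≤ succ^[n] (max ℵ₀ #(A ∩ R))` for every `A` closed under `h`. `StH` on
the type `R` gives `H : Set R → R` with: for `B : Set R` with `#B = #R` and `c : R` there is a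
countable infinite `s ⊆ B` with `H s = c`. Since `#K ≤ ρ ^ ℵ₀ = #(ℕ → R)` there is a map
`b : (ℕ → R) → α` whose range contains `K` (is equal to `K`). Operations on sequences `x : ℕ → α`:
all `h j x`; `x ↦ H (range x)` (as a subset of `R`) if all `x n ∈ R`, `x 0` otherwise;
`x ↦ b x` if all `x n ∈ R`, `x 0` otherwise; these are countably many, index them by `ℕ → Bool`
through a surjection `(ℕ → Bool) → ℕ` (see M_N, M_L of project CK). Suppose `Chang K`, and take a
closed `A` with `#K ≤ #A`, `#(A ∩ K) < #K`. If `#(A ∩ R) < ρ` then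
`#A ≤ succ^[n] (max ℵ₀ #(A ∩ R)) < ρ ≤ #K` (iterate the limit hypothesis; `ℵ₀ < ρ`), a
contradiction. So `#(A ∩ R) = ρ`. For `c ∈ R` there is a countable infinite `s ⊆ A ∩ R` with `H s = c`;
`s` is the range of a sequence, so `c ∈ A`. So `R ⊆ A`, and then `K ⊆ A` by closure under `b`;
`#(A ∩ K) = #K`, a contradiction. -/
def StRho : Prop := ∀ (α : Type u) (K : Set α) (ρ : Cardinal.{u}) (n : ℕ), ℵ₀ < ρ →
  (∀ c < ρ, Order.succ c < ρ) → ρ ≤ #K → #α = Order.succ^[n] ρ → #K ≤ ρ ^ ℵ₀ → ¬ Chang K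

/-- MODULE MOD. PROOF. Let `#M = #α`, `#U = succ μ`, `L` a countable language, `L.Structure M`.
Transport `FinCol α γ` to: for all `F : Finset M → U` there is `X : Set M` with `#X = succ μ` and
`#(F '' {s | ↑s ⊆ X}) ≤ μ`. Put on `U` a well-order of type `(succ μ).ord`
(`Cardinal.ord_eq` or transport from `(succ μ).ord.ToType`): every subset of size `≤ μ` has a strict
upper bound (regularity of `succ μ`, `μ ≥ ℵ₀`) and `#(Iio b) ≤ μ`. Fix `M₀ ⊆ U` with `#M₀ = μ`. Let
`L' = L.sum L.skolem₁` (Mathlib.ModelTheory.Skolem; it is countable) with its structure on `M`.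
For finite `s ⊆ M` the set `closure L' (s ∪ M₀) ∩ U` has size `≤ μ`
(`FirstOrder.Language.Substructure.lift_card_closure_le`); let `F s ∈ U` be a strict upper bound of
it. Take `X`; as `F '' {s | ↑s ⊆ X}` has size `≤ μ`, it has an upper bound `b ∈ U`. Let
`C = closure L' (X ∪ M₀)`. Every element of `C` is in `closure L' (s ∪ M₀)` for a finite `s ⊆ X`
(`closure_induction`: the union of these is directed and closed under the functions, or
`mem_closure_iff_exists_term`). So `C ∩ U ⊆ Iio b`, of size `≤ μ`, and `≥ μ` since it contains `M₀`.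
`#C = succ μ` (`X ⊆ C` and the closure cardinality bound). Finally
`S = C.elementarySkolem₁Reduct` (see the proof of `exists_elementarySubstructure_card_eq`) is an
elementary substructure for `L` with the same elements. -/
def StMod : Prop := ∀ (α γ : Type u) (μ : Cardinal.{u}), ℵ₀ ≤ μ → #γ = Order.succ μ →
  FinCol α γ → Transfer #α (Order.succ μ) (Order.succ μ) μ

/-- MODULE COL. PROOF: let `F : Finset α → γ`. As `#γ ≤ #α` there is an injection `q : γ → α`; let
`U` be its range. Language with one function symbol of every arity and no relations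
(`⟨fun _ => Unit, fun _ => Empty⟩`, `L.card ≤ ℵ₀`), structure on `α`:
`funMap _ x = q (F (Finset.univ.image x))` for `x : Fin n → α` (classical decidability). Take the
elementary substructure `S` with `#S = succ μ`, `#(S ∩ U) = μ`, `X = S`. For `s : Finset α`, `s ⊆ X`,
`q (F s) ∈ S ∩ U` (enumerate `s` by `Fin n`, `S` is closed under `funMap`). So
`#(F '' {s | ↑s ⊆ X}) ≤ #(S ∩ U) = μ < succ μ`. -/
def StCol : Prop := ∀ (α γ : Type u) (μ : Cardinal.{u}), #γ = Order.succ μ → #γ ≤ #α →
  Transfer #α (Order.succ μ) (Order.succ μ) μ → FinCol α γ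

/-- MODULE POS (the key step, `α` of size `μ⁺⁺`, `γ` of size `μ⁺`, `μ^ω = μ`). -/
def StPos : Prop := ∀ (α γ : Type u) (μ : Cardinal.{u}), ℵ₀ ≤ μ → μ ^ ℵ₀ = μ → #γ = Order.succ μ →
  #α = Order.succ #γ → FinCol α γ →
    ∀ F : Set α → γ, ∃ X : Set α, #X = #γ ∧ #(F '' Om X) < #γ

end Pool.Agent.Helper36.CQ
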